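import Pool.Agent.W475.BG.Stm
import Pool.Agent.W73.BH.D1

/-!
Project BG (helper475): part D1, the terms with the same prime.
-/

set_option autoImplicit false

namespace Pool.Agent.W99.BG

open Pool.Agent.W475.BG

section

variable {A : ℕ → ℝ} {C : ℝ}

/-- sums over consecutive blocks -/
lemma blocks (f : ℕ → ℝ) (x : ℕ → ℕ) (hx : ∀ j, x j ≤ x (j + 1)) (J : ℕ) :
    ∑ n ∈ Finset.Ioc (x 0) (x J), f n =
      ∑ j ∈ Finset.range J, ∑ n ∈ Finset.Ioc (x j) (x (j + 1)), f n := by
  have hmono : ∀ j, x 0 ≤ x j := by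
    intro j
    induction j with
    | zero => exact le_rfl
    | succ j ih => exact ih.trans (hx j)
  induction J with
  | zero => simp
  | succ J ih =>
    rw [Finset.sum_range_succ, ← ih, Finset.sum_Ioc_consecutive f (hmono J) (hx J)]

lemma blocks' (f : ℕ → ℝ) (x : ℕ → ℕ) (hx : ∀ j, x (j + 1) ≤ x j) (J : ℕ) :
    ∑ n ∈ Finset.Ioc (x J) (x 0), f n =
      ∑ j ∈ Finset.range J, ∑ n ∈ Finset.Ioc (x (j + 1)) (x j), f n := by
  have hmono : ∀ j, x j ≤ x 0 := by
    intro j
    induction j with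
    | zero => exact le_rfl
    | succ j ih => exact (hx j).trans ih
  induction J with
  | zero => simp
  | succ J ih =>
    rw [Finset.sum_range_succ, ← ih, add_comm (∑ n ∈ Finset.Ioc (x J) (x 0), f n),
      Finset.sum_Ioc_consecutive f (hx J) (hmono J)]

lemma sum_sq (J : ℕ) : ∑ j ∈ Finset.range J, 1 / ((j : ℝ) + 1) ^ 2 ≤ 2 := by
  have key : ∀ J : ℕ, ∑ j ∈ Finset.range (J + 1), 1 / ((j : ℝ) + 1) ^ 2 ≤
      2 - 1 / ((J : ℝ) + 1) := by
    intro J
    induction J with
    | zero => norm_num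
    | succ J ih =>
      rw [Finset.sum_range_succ]
      have h1 : (0 : ℝ) < (J : ℝ) + 1 := by positivity
      have h2 : 1 / (((J + 1 : ℕ) : ℝ) + 1) ^ 2 ≤ 1 / ((J : ℝ) + 1) - 1 / (((J + 1 : ℕ) : ℝ) + 1) := by
        push_cast
        have h3 : 1 / ((J : ℝ) + 1) - 1 / ((J : ℝ) + 1 + 1) =
            1 / (((J : ℝ) + 1) * ((J : ℝ) + 1 + 1)) := by
          field_simp
          ring
        rw [h3]
        apply one_div_le_one_div_of_le (by positivity)
        nlinarith
      linarith
  rcases J with _ | J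
  · simp
  · refine (key J).trans ?_
    have : 0 ≤ 1 / ((J : ℝ) + 1) := by positivity
    linarith

/-- cumulative sums -/
lemma cum (hA : ∀ n, 0 ≤ A n) (hC : 0 < C)
    (hs : ∀ x h : ℝ, 2 ≤ x → x / Real.log x ^ 3 ≤ h → h ≤ x →
      ∑ n ∈ Finset.Ioc ⌊x⌋₊ ⌊x + h⌋₊, A n ≤ C * h) (m : ℕ) (hm : 3 ≤ m) :
    ∑ n ∈ Finset.Ioc m (2 * m), A n ≤ C * m := by
  have h3 : (3 : ℝ) ≤ m := by exact_mod_cast hm
  have hlog : 1 ≤ Real.log m := by
    rw [Real.le_log_iff_exp_le (by linarith)]
    have := Real.exp_one_lt_d9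
    linarith
  have h := hs m m (by linarith) (by
    apply div_le_self (by linarith)
    exact one_le_pow₀ hlog) le_rfl
  have h1 : ⌊(m : ℝ) + m⌋₊ = 2 * m := by
    rw [← Nat.cast_add, Nat.floor_natCast]
    ring
  rw [Nat.floor_natCast, h1] at h
  exact h

lemma cum1 (hA : ∀ n, 0 ≤ A n) (hC : 0 < C)
    (hs : ∀ m : ℕ, 3 ≤ m → ∑ n ∈ Finset.Ioc m (2 * m), A n ≤ C * m) (k : ℕ) :
    ∑ n ∈ Finset.Icc 1 (4 * 2 ^ k), A n ≤ (C + ∑ n ∈ Finset.Icc 1 4, A n) * (4 * 2 ^ k) := by
  have hK : 0 ≤ ∑ n ∈ Finset.Icc 1 4, A n := Finset.sum_nonneg fun n _ => hA n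
  induction k with
  | zero =>
    simp only [pow_zero, mul_one]
    nlinarith
  | succ k ih =>
    have h1 : ∑ n ∈ Finset.Icc 1 (4 * 2 ^ (k + 1)), A n =
        ∑ n ∈ Finset.Icc 1 (4 * 2 ^ k), A n + ∑ n ∈ Finset.Ioc (4 * 2 ^ k) (2 * (4 * 2 ^ k)), A n := by
      have h2 : ∀ M, ∑ n ∈ Finset.Icc 1 M, A n = ∑ n ∈ Finset.Ioc 0 M, A n := fun _ => rfl
      rw [h2, h2, Finset.sum_Ioc_consecutive A (Nat.zero_le _) (by omega)]
      congr 2
      ring
    have h3 := hs (4 * 2 ^ k) (by
      have : 1 ≤ 2 ^ k := Nat.one_le_two_pow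
      omega)
    rw [h1]
    push_cast at h3
    have h4 : (C + ∑ n ∈ Finset.Icc 1 4, A n) * (4 * 2 ^ (k + 1)) =
        (C + ∑ n ∈ Finset.Icc 1 4, A n) * (4 * 2 ^ k) +
          (C + ∑ n ∈ Finset.Icc 1 4, A n) * (4 * 2 ^ k) := by ring
    rw [h4]
    have h5 : C * (4 * 2 ^ k) ≤ (C + ∑ n ∈ Finset.Icc 1 4, A n) * (4 * 2 ^ k) := by
      apply mul_le_mul_of_nonneg_right _ (by positivity)
      linarith
    linarith

lemma cum2 (hA : ∀ n, 0 ≤ A n) (hC : 0 < C)
    (hs : ∀ m : ℕ, 3 ≤ m → ∑ n ∈ Finset.Ioc m (2 * m), A n ≤ C * m) (p : ℕ) (hp : 1 ≤ p) :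
    ∑ n ∈ Finset.Icc 1 p, A n ≤ (C + ∑ n ∈ Finset.Icc 1 4, A n) * (4 * p) := by
  have hK : 0 ≤ ∑ n ∈ Finset.Icc 1 4, A n := Finset.sum_nonneg fun n _ => hA n
  have h1 : 2 ^ Nat.log 2 p ≤ p := Nat.pow_log_le_self 2 (by omega)
  have h2 : p < 2 ^ (Nat.log 2 p + 1) := Nat.lt_pow_succ_log_self (by norm_num) p
  have h3 : p ≤ 4 * 2 ^ Nat.log 2 p := by
    rw [pow_succ] at h2
    omega
  refine (Finset.sum_le_sum_of_subset_of_nonneg (Finset.Icc_subset_Icc_right h3)
    (fun n _ _ => hA n)).trans ((cum1 hA hC hs _).trans ?_)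
  apply mul_le_mul_of_nonneg_left _ (by linarith)
  have : ((2 ^ Nat.log 2 p : ℕ) : ℝ) ≤ p := by exact_mod_cast h1
  push_cast at this
  linarith

lemma cum3 (hA : ∀ n, 0 ≤ A n) (hC : 0 < C)
    (hs : ∀ m : ℕ, 3 ≤ m → ∑ n ∈ Finset.Ioc m (2 * m), A n ≤ C * m) (m : ℕ) (hm : 3 ≤ m)
    (N : ℕ) : ∑ n ∈ Finset.Ioc m N, A n / (n : ℝ) ^ 2 ≤ 2 * C / m := by
  have hm0 : (0 : ℝ) < m := by exact_mod_cast (by omega : 0 < m)
  have key : ∀ K : ℕ, ∑ n ∈ Finset.Ioc m (2 ^ K * m), A n / (n : ℝ) ^ 2 ≤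
      C / m * (2 - 2 / 2 ^ K) := by
    intro K
    induction K with
    | zero => simp
    | succ K ih =>
      have h1 : 1 ≤ 2 ^ K := Nat.one_le_two_pow
      have h2 : m ≤ 2 ^ K * m := Nat.le_mul_of_pos_left m (by omega)
      have h3 : 2 ^ (K + 1) * m = 2 * (2 ^ K * m) := by ring
      rw [h3, ← Finset.sum_Ioc_consecutive _ h2 (by omega)]
      have h4 : ∑ n ∈ Finset.Ioc (2 ^ K * m) (2 * (2 ^ K * m)), A n / (n : ℝ) ^ 2 ≤
          C / m * (1 / 2 ^ K) := by
        calc ∑ n ∈ Finset.Ioc (2 ^ K * m) (2 * (2 ^ K * m)), A n / (n : ℝ) ^ 2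
            ≤ ∑ n ∈ Finset.Ioc (2 ^ K * m) (2 * (2 ^ K * m)), A n / ((2 : ℝ) ^ K * m) ^ 2 := by
              refine Finset.sum_le_sum fun n hn => ?_
              have hn1 : ((2 ^ K * m : ℕ) : ℝ) ≤ n := by
                exact_mod_cast (Finset.mem_Ioc.1 hn).1.le
              push_cast at hn1
              apply div_le_div_of_nonneg_left (hA n) (by positivity)
              exact pow_le_pow_left₀ (by positivity) hn1 2
          _ = (∑ n ∈ Finset.Ioc (2 ^ K * m) (2 * (2 ^ K * m)), A n) / ((2 : ℝ) ^ K * m) ^ 2 := by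
              rw [Finset.sum_div]
          _ ≤ (C * ((2 : ℝ) ^ K * m)) / ((2 : ℝ) ^ K * m) ^ 2 := by
              apply div_le_div_of_nonneg_right _ (by positivity)
              have := hs (2 ^ K * m) (hm.trans h2)
              push_cast at this
              exact this
          _ = C / m * (1 / 2 ^ K) := by
              field_simp
      have h5 : C / m * (2 - 2 / 2 ^ (K + 1)) = C / m * (2 - 2 / 2 ^ K) + C / m * (1 / 2 ^ K) := by
        rw [pow_succ]
        field_simp
        ring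
      rw [h5]
      exact add_le_add ih h4
  have hN : N ≤ 2 ^ N * m := by
    have h1 : N < 2 ^ N := Nat.lt_two_pow_self
    have h2 : 2 ^ N ≤ 2 ^ N * m := Nat.le_mul_of_pos_right _ (by omega)
    omega
  refine (Finset.sum_le_sum_of_subset_of_nonneg (Finset.Ioc_subset_Ioc_right hN)
    (fun n _ _ => div_nonneg (hA n) (by positivity))).trans ((key N).trans ?_)
  have h1 : C / m * (2 - 2 / 2 ^ N) ≤ C / m * 2 := by
    apply mul_le_mul_of_nonneg_left _ (by positivity)
    have : (0 : ℝ) ≤ 2 / 2 ^ N := by positivity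
    linarith
  calc C / m * (2 - 2 / 2 ^ N) ≤ C / m * 2 := h1
    _ = 2 * C / m := by ring

end

lemma min_bd (W L : ℝ) (j : ℕ) (h : j = 0 ∨ ((j : ℝ) + 1) / 24 ≤ W * |L|) :
    min 1 (4 / (W * L) ^ 2) ≤ 2304 / ((j : ℝ) + 1) ^ 2 := by
  rcases h with rfl | h
  · refine (min_le_left _ _).trans ?_
    norm_num
  · refine (min_le_right _ _).trans ?_
    have h1 : (W * L) ^ 2 = (W * |L|) ^ 2 := by rw [mul_pow, mul_pow, sq_abs]
    rw [h1]
    have h2 : (((j : ℝ) + 1) / 24) ^ 2 ≤ (W * |L|) ^ 2 := pow_le_pow_left₀ (by positivity) h 2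
    calc 4 / (W * |L|) ^ 2 ≤ 4 / (((j : ℝ) + 1) / 24) ^ 2 :=
          div_le_div_of_nonneg_left (by norm_num) (by positivity) h2
      _ = 2304 / ((j : ℝ) + 1) ^ 2 := by
          field_simp
          norm_num

lemma min_far (W L : ℝ) (hW : 1 ≤ W) (h : 1 / 2 ≤ |L|) :
    min 1 (4 / (W * L) ^ 2) ≤ 16 / W := by
  have hW0 : 0 < W := by linarith
  refine (min_le_right _ _).trans ?_
  have h1 : (W * L) ^ 2 = (W * |L|) ^ 2 := by rw [mul_pow, mul_pow, sq_abs]
  rw [h1]
  have h2 : (W * (1 / 2)) ^ 2 ≤ (W * |L|) ^ 2 :=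
    pow_le_pow_left₀ (by positivity) (mul_le_mul_of_nonneg_left h hW0.le) 2
  calc 4 / (W * |L|) ^ 2 ≤ 4 / (W * (1 / 2)) ^ 2 :=
        div_le_div_of_nonneg_left (by norm_num) (by positivity) h2
    _ = 16 / W * (1 / W) := by
        field_simp
        norm_num
    _ ≤ 16 / W * 1 := by
        apply mul_le_mul_of_nonneg_left _ (by positivity)
        rw [div_le_one hW0]
        exact hW
    _ = 16 / W := mul_one _

lemma log_ge (W : ℝ) (hW : 1 ≤ W) (l : ℝ) (hl : 1024 ≤ l) (h : W ≤ l ^ (5 / 2 : ℝ)) :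
    32 * W ≤ l ^ 3 := by
  have hl0 : 0 < l := by linarith
  have h1 : l ^ 3 = l ^ (5 / 2 : ℝ) * l ^ (1 / 2 : ℝ) := by
    rw [← Real.rpow_add hl0]
    norm_num
  have h2 : 32 ≤ l ^ (1 / 2 : ℝ) := by
    rw [← Real.sqrt_eq_rpow]
    apply Real.le_sqrt_of_sq_le
    norm_num
    exact hl
  rw [h1]
  calc 32 * W = W * 32 := by ring
    _ ≤ l ^ (5 / 2 : ℝ) * l ^ (1 / 2 : ℝ) := mul_le_mul h h2 (by norm_num) (by positivity)

/-- the condition of the short interval bound -/
lemma short_ok (p W x : ℝ) (hp : 0 < p) (hW : 1 ≤ W) (hl : 1024 ≤ Real.log p)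
    (h3 : 32 * W ≤ Real.log p ^ 3) (hx1 : p / 4 ≤ x) (hx2 : x ≤ p) :
    x / Real.log x ^ 3 ≤ p / (4 * W) := by
  have hx0 : 0 < x := by linarith
  have hlog4 : Real.log 4 ≤ 2 := by
    have h1 : Real.log 4 = 2 * Real.log 2 := by
      rw [show (4 : ℝ) = 2 ^ 2 by norm_num, Real.log_pow]
      norm_num
    have := Real.log_two_lt_d9
    rw [h1]
    linarith
  have h4 : Real.log p / 2 ≤ Real.log x := by
    have h5 : Real.log (p / 4) ≤ Real.log x := Real.log_le_log (by positivity) hx1
    rw [Real.log_div hp.ne' (by norm_num)] at h5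
    linarith
  have h6 : (Real.log p / 2) ^ 3 ≤ Real.log x ^ 3 := pow_le_pow_left₀ (by linarith) h4 3
  have h7 : (0 : ℝ) < (Real.log p / 2) ^ 3 := by
    have : 0 < Real.log p / 2 := by linarith
    positivity
  have hl3 : 0 < Real.log p ^ 3 := by
    have : 0 < Real.log p := by linarith
    positivity
  calc x / Real.log x ^ 3 ≤ p / (Real.log p / 2) ^ 3 :=
        div_le_div₀ hp.le hx2 h7 h6
    _ = 8 * p / Real.log p ^ 3 := by
        rw [div_pow]
        field_simp
        norm_num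
    _ ≤ p / (4 * W) := by
        rw [div_le_div_iff₀ hl3 (by linarith)]
        nlinarith

lemma short_ok2 (p W x : ℝ) (hp : 0 < p) (hW : 1 ≤ W) (hl : 1024 ≤ Real.log p)
    (h3 : 32 * W ≤ Real.log p ^ 3) (hx1 : p ≤ x) (hx2 : x ≤ 2 * p) :
    x / Real.log x ^ 3 ≤ p / (4 * W) := by
  have hx0 : 0 < x := by linarith
  have h4 : Real.log p ≤ Real.log x := Real.log_le_log hp hx1
  have h6 : (Real.log p) ^ 3 ≤ Real.log x ^ 3 := pow_le_pow_left₀ (by linarith) h4 3
  have hl3 : 0 < Real.log p ^ 3 := by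
    have : 0 < Real.log p := by linarith
    positivity
  calc x / Real.log x ^ 3 ≤ 2 * p / (Real.log p) ^ 3 :=
        div_le_div₀ (by linarith) hx2 hl3 h6
    _ ≤ p / (4 * W) := by
        rw [div_le_div_iff₀ hl3 (by linarith)]
        nlinarith

theorem d1 (D : Dat) (hD : Ok D) : S_D1 D := by
  intro κ hκ
  obtain ⟨C, hC, hshrt⟩ := hD.shrt
  set A : ℕ → ℝ := fun n => ‖D.a n‖ ^ 2 with hAdef
  have hA : ∀ n, 0 ≤ A n := fun n => sq_nonneg _
  have hs : ∀ m : ℕ, 3 ≤ m → ∑ n ∈ Finset.Ioc m (2 * m), A n ≤ C * m :=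
    fun m hm => cum hA hC hshrt m hm
  set E := Real.exp (1 / (4 * κ)) with hE
  have hE0 : 0 < E := Real.exp_pos _
  set K0 := ∑ n ∈ Finset.Icc 1 4, A n with hK0
  have hK00 : 0 ≤ K0 := Finset.sum_nonneg fun n _ => hA n
  refine ⟨5760 * C + 64 * E * (C + K0) + 32 * E * C, Real.exp 1024, by positivity, ?_, ?_⟩
  · have := Real.add_one_le_exp (1024 : ℝ)
    linarith
  intro p N W hp hW hWp
  have hp2 : (1024 : ℝ) < p := by
    have := Real.add_one_le_exp (1024 : ℝ)
    linarith
  have hp0 : (0 : ℝ) < p := by linarith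
  have hpn : 1024 < p := by exact_mod_cast hp2
  have hl : 1024 ≤ Real.log p := by
    rw [Real.le_log_iff_exp_le hp0]
    exact hp
  have hl3 := log_ge W hW _ hl hWp
  have hW0 : 0 < W := by linarith
  set h0 : ℝ := p / (4 * W) with hh0
  have hh0pos : 0 < h0 := by positivity
  have hh0le : h0 ≤ p / 4 := by
    rw [hh0]
    apply div_le_div_of_nonneg_left hp0.le (by norm_num)
    linarith
  have hWh : W * h0 = p / 4 := by
    rw [hh0]
    field_simp
  set t : ℕ → ℝ := fun n => ‖D.a n‖ ^ 2 / (n : ℝ) *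
    Real.exp (-(κ * Real.log ((n : ℝ) / p) ^ 2)) * min 1 (4 / (W * Real.log ((n : ℝ) / p)) ^ 2)
    with ht
  have hmin0 : ∀ x : ℝ, 0 ≤ min 1 (4 / x ^ 2) := fun x => le_min zero_le_one (by positivity)
  have ht0 : ∀ n, 0 ≤ t n := by
    intro n
    exact mul_nonneg (mul_nonneg (div_nonneg (hA n) (Nat.cast_nonneg n)) (Real.exp_pos _).le)
      (hmin0 _)
  -- bounds of the terms
  have hexp1 : ∀ x : ℝ, Real.exp (-(κ * x ^ 2)) ≤ 1 := by
    intro x
    rw [Real.exp_le_one_iff]
    have : 0 ≤ κ * x ^ 2 := by positivity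
    linarith
  have hnear : ∀ (n : ℕ) (c : ℝ) (j : ℕ), 0 < c → c ≤ (n : ℝ) →
      (j = 0 ∨ ((j : ℝ) + 1) / 24 ≤ W * |Real.log ((n : ℝ) / p)|) →
      t n ≤ 1 / c * (2304 / ((j : ℝ) + 1) ^ 2) * A n := by
    intro n c j hc hcn hj
    have h1 := min_bd W _ j hj
    have h2 : ‖D.a n‖ ^ 2 / (n : ℝ) * Real.exp (-(κ * Real.log ((n : ℝ) / p) ^ 2)) ≤
        A n * (1 / c) := by
      calc ‖D.a n‖ ^ 2 / (n : ℝ) * Real.exp (-(κ * Real.log ((n : ℝ) / p) ^ 2))
          ≤ ‖D.a n‖ ^ 2 / (n : ℝ) * 1 := by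
            apply mul_le_mul_of_nonneg_left (hexp1 _)
            exact div_nonneg (hA n) (Nat.cast_nonneg n)
        _ = A n * (1 / (n : ℝ)) := by
            rw [hAdef]
            ring
        _ ≤ A n * (1 / c) := by
            apply mul_le_mul_of_nonneg_left _ (hA n)
            exact one_div_le_one_div_of_le hc hcn
    calc t n ≤ A n * (1 / c) * (2304 / ((j : ℝ) + 1) ^ 2) := by
          refine mul_le_mul h2 h1 (hmin0 _) ?_
          exact mul_nonneg (hA n) (by positivity)
      _ = 1 / c * (2304 / ((j : ℝ) + 1) ^ 2) * A n := by ring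
  have hfar1 : ∀ n : ℕ, 1 ≤ n → 1 / 2 ≤ |Real.log ((n : ℝ) / p)| →
      t n ≤ E * (1 / p) * (16 / W) * A n := by
    intro n hn hL
    have h1 := min_far W _ hW hL
    have h2 := Pool.Agent.W73.BH.base1 κ p hκ (by omega) n hn
    calc t n = A n * (1 / (n : ℝ) * Real.exp (-(κ * Real.log ((n : ℝ) / p) ^ 2))) *
          min 1 (4 / (W * Real.log ((n : ℝ) / p)) ^ 2) := by
          rw [ht, hAdef]
          ring
      _ ≤ A n * (E * (1 / p)) * (16 / W) := by
          refine mul_le_mul (mul_le_mul_of_nonneg_left h2 (hA n)) h1 (hmin0 _) ?_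
          exact mul_nonneg (hA n) (by positivity)
      _ = _ := by ring
  have hfar2 : ∀ n : ℕ, 1 ≤ n → 1 / 2 ≤ |Real.log ((n : ℝ) / p)| →
      t n ≤ E * p * (16 / W) * (A n / (n : ℝ) ^ 2) := by
    intro n hn hL
    have h1 := min_far W _ hW hL
    have h2 := Pool.Agent.W73.BH.base2 κ p hκ (by omega) n hn
    calc t n = A n * (1 / (n : ℝ) * Real.exp (-(κ * Real.log ((n : ℝ) / p) ^ 2))) *
          min 1 (4 / (W * Real.log ((n : ℝ) / p)) ^ 2) := by
          rw [ht, hAdef]
          ring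
      _ ≤ A n * (E * (p / (n : ℝ) ^ 2)) * (16 / W) := by
          refine mul_le_mul (mul_le_mul_of_nonneg_left h2 (hA n)) h1 (hmin0 _) ?_
          exact mul_nonneg (hA n) (by positivity)
      _ = _ := by ring
  -- the upper blocks
  set J := ⌈4 * W⌉₊ with hJ
  set x : ℕ → ℕ := fun j => ⌊(p : ℝ) + j * h0⌋₊ with hx
  have hx0 : x 0 = p := by simp [hx]
  have hxm : ∀ j, x j ≤ x (j + 1) := by
    intro j
    apply Nat.floor_le_floor
    push_cast
    linarith
  have hJ1 : 4 * W ≤ J := Nat.le_ceil _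
  have hJ2 : (J : ℝ) < 4 * W + 1 := Nat.ceil_lt_add_one (by positivity)
  have hup : ∑ n ∈ Finset.Ioc p (x J), t n ≤ 1152 * C / W := by
    have h1 := blocks t x hxm J
    rw [hx0] at h1
    rw [h1]
    have h2 : ∀ j ∈ Finset.range J, ∑ n ∈ Finset.Ioc (x j) (x (j + 1)), t n ≤
        576 * C / W * (1 / ((j : ℝ) + 1) ^ 2) := by
      intro j hj
      have hjJ : j < J := Finset.mem_range.1 hj
      have hj1 : (j : ℝ) + 1 ≤ J := by exact_mod_cast hjJ
      have hjW : (j : ℝ) ≤ 4 * W := by linarith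
      have hxle : (p : ℝ) + j * h0 ≤ 2 * p := by
        have := mul_le_mul_of_nonneg_right hjW hh0pos.le
        have h4 : 4 * W * h0 = p := by linarith
        linarith
      have hxge : (p : ℝ) ≤ p + j * h0 := by
        have : 0 ≤ (j : ℝ) * h0 := by positivity
        linarith
      have h3 := hshrt (p + j * h0) h0 (by linarith)
        (short_ok2 p W _ hp0 hW hl hl3 hxge hxle) (by linarith)
      have h4 : ⌊(p : ℝ) + j * h0 + h0⌋₊ = x (j + 1) := by
        simp only [hx]
        congr 1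
        push_cast
        ring
      rw [h4] at h3
      calc ∑ n ∈ Finset.Ioc (x j) (x (j + 1)), t n
          ≤ ∑ n ∈ Finset.Ioc (x j) (x (j + 1)), 1 / (p : ℝ) * (2304 / ((j : ℝ) + 1) ^ 2) * A n := by
            refine Finset.sum_le_sum fun n hn => ?_
            rw [Finset.mem_Ioc] at hn
            have hn1 : (p : ℝ) + j * h0 < n := Nat.lt_of_floor_lt hn.1
            have hn2 : (n : ℝ) ≤ p + ((j + 1 : ℕ) : ℝ) * h0 :=
              (Nat.cast_le.2 hn.2).trans (Nat.floor_le (by positivity))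
            push_cast at hn2
            have hn0 : (0 : ℝ) < n := by linarith
            apply hnear n p j hp0 (by linarith)
            rcases Nat.eq_zero_or_pos j with hj0 | hj0
            · exact Or.inl hj0
            · right
              have hj0' : (1 : ℝ) ≤ j := by exact_mod_cast hj0
              have h5 : 1 - (p : ℝ) / n ≤ Real.log ((n : ℝ) / p) := by
                have := Real.one_sub_inv_le_log_of_pos (show 0 < (n : ℝ) / p by positivity)
                rwa [inv_div] at this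
              have h6 : (j : ℝ) / (12 * W) ≤ 1 - (p : ℝ) / n := by
                have h7 : 1 - (p : ℝ) / n = (n - p) / n := by field_simp
                rw [h7, div_le_div_iff₀ (by positivity) hn0]
                have h8 : (n : ℝ) ≤ 3 * p := by linarith
                have h9 : (j : ℝ) * h0 ≤ n - p := by linarith
                have h10 : (j : ℝ) * n ≤ j * (3 * p) :=
                  mul_le_mul_of_nonneg_left h8 (by positivity)
                have h11 : (j : ℝ) * h0 * (12 * W) ≤ (n - p) * (12 * W) :=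
                  mul_le_mul_of_nonneg_right h9 (by positivity)
                have h12 : (j : ℝ) * h0 * (12 * W) = j * (3 * p) := by
                  calc (j : ℝ) * h0 * (12 * W) = 12 * j * (W * h0) := by ring
                    _ = j * (3 * p) := by rw [hWh]; ring
                linarith
              have h13 : (j : ℝ) / (12 * W) ≤ |Real.log ((n : ℝ) / p)| :=
                h6.trans (h5.trans (le_abs_self _))
              have h14 := mul_le_mul_of_nonneg_left h13 hW0.le
              have h15 : W * ((j : ℝ) / (12 * W)) = j / 12 := by field_simp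
              rw [h15] at h14
              linarith
        _ = 1 / (p : ℝ) * (2304 / ((j : ℝ) + 1) ^ 2) * ∑ n ∈ Finset.Ioc (x j) (x (j + 1)), A n := by
            rw [Finset.mul_sum]
        _ ≤ 1 / (p : ℝ) * (2304 / ((j : ℝ) + 1) ^ 2) * (C * h0) :=
            mul_le_mul_of_nonneg_left h3 (by positivity)
        _ = 576 * C / W * (1 / ((j : ℝ) + 1) ^ 2) := by
            rw [hh0]
            field_simp
            norm_num
    refine (Finset.sum_le_sum h2).trans ?_
    rw [← Finset.mul_sum]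
    calc 576 * C / W * ∑ j ∈ Finset.range J, 1 / ((j : ℝ) + 1) ^ 2 ≤ 576 * C / W * 2 :=
          mul_le_mul_of_nonneg_left (sum_sq J) (by positivity)
      _ = 1152 * C / W := by ring
  -- the lower blocks
  set J' := ⌈2 * W⌉₊ with hJ'
  set y : ℕ → ℕ := fun j => ⌊(p : ℝ) - j * h0⌋₊ with hy
  have hy0 : y 0 = p := by simp [hy]
  have hym : ∀ j, y (j + 1) ≤ y j := by
    intro j
    apply Nat.floor_le_floor
    push_cast
    linarith
  have hJ1' : 2 * W ≤ J' := Nat.le_ceil _
  have hJ2' : (J' : ℝ) < 2 * W + 1 := Nat.ceil_lt_add_one (by positivity)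
  have hdn : ∑ n ∈ Finset.Ioc (y J') p, t n ≤ 4608 * C / W := by
    have h1 := blocks' t y hym J'
    rw [hy0] at h1
    rw [h1]
    have h2 : ∀ j ∈ Finset.range J', ∑ n ∈ Finset.Ioc (y (j + 1)) (y j), t n ≤
        2304 * C / W * (1 / ((j : ℝ) + 1) ^ 2) := by
      intro j hj
      have hjJ : j < J' := Finset.mem_range.1 hj
      have hj1 : (j : ℝ) + 1 ≤ J' := by exact_mod_cast hjJ
      have hjW : (j : ℝ) + 1 ≤ 2 * W + 1 := by linarith
      have hxge : (p : ℝ) / 4 ≤ p - ((j : ℝ) + 1) * h0 := by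
        have := mul_le_mul_of_nonneg_right hjW hh0pos.le
        have h4 : (2 * W + 1) * h0 = p / 2 + h0 := by
          calc (2 * W + 1) * h0 = 2 * (W * h0) + h0 := by ring
            _ = p / 2 + h0 := by rw [hWh]; ring
        linarith
      have hxle : (p : ℝ) - ((j : ℝ) + 1) * h0 ≤ p := by
        have : 0 ≤ ((j : ℝ) + 1) * h0 := by positivity
        linarith
      have h3 := hshrt (p - ((j : ℝ) + 1) * h0) h0 (by linarith)
        (short_ok p W _ hp0 hW hl hl3 hxge hxle) (by linarith)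
      have h4 : ⌊(p : ℝ) - ((j : ℝ) + 1) * h0 + h0⌋₊ = y j := by
        simp only [hy]
        congr 1
        ring
      have h4' : ⌊(p : ℝ) - ((j : ℝ) + 1) * h0⌋₊ = y (j + 1) := by
        simp only [hy]
        congr 1
        push_cast
        ring
      rw [h4, h4'] at h3
      calc ∑ n ∈ Finset.Ioc (y (j + 1)) (y j), t n
          ≤ ∑ n ∈ Finset.Ioc (y (j + 1)) (y j),
              1 / ((p : ℝ) / 4) * (2304 / ((j : ℝ) + 1) ^ 2) * A n := by
            refine Finset.sum_le_sum fun n hn => ?_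
            rw [Finset.mem_Ioc] at hn
            have hn1 : (p : ℝ) - ((j : ℝ) + 1) * h0 < n := by
              have := Nat.lt_of_floor_lt hn.1
              push_cast at this
              exact this
            have hpj : 0 ≤ (p : ℝ) - j * h0 := by linarith
            have hn2 : (n : ℝ) ≤ p - (j : ℝ) * h0 :=
              (Nat.cast_le.2 hn.2).trans (Nat.floor_le hpj)
            have hn0 : (0 : ℝ) < n := by linarith
            apply hnear n (p / 4) j (by positivity) (by linarith)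
            rcases Nat.eq_zero_or_pos j with hj0 | hj0
            · exact Or.inl hj0
            · right
              have hj0' : (1 : ℝ) ≤ j := by exact_mod_cast hj0
              have h5 : 1 - (n : ℝ) / p ≤ -Real.log ((n : ℝ) / p) := by
                have := Real.one_sub_inv_le_log_of_pos (show 0 < (p : ℝ) / n by positivity)
                rw [inv_div] at this
                have h6 : -Real.log ((n : ℝ) / p) = Real.log ((p : ℝ) / n) := by
                  rw [← Real.log_inv, inv_div]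
                rw [h6]
                exact this
              have h6 : (j : ℝ) / (4 * W) ≤ 1 - (n : ℝ) / p := by
                have h7 : 1 - (n : ℝ) / p = (p - n) / p := by field_simp
                rw [h7, div_le_div_iff₀ (by positivity) hp0]
                have h9 : (j : ℝ) * h0 ≤ p - n := by linarith
                have h11 : (j : ℝ) * h0 * (4 * W) ≤ (p - n) * (4 * W) :=
                  mul_le_mul_of_nonneg_right h9 (by positivity)
                have h12 : (j : ℝ) * h0 * (4 * W) = j * p := by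
                  calc (j : ℝ) * h0 * (4 * W) = 4 * j * (W * h0) := by ring
                    _ = j * p := by rw [hWh]; ring
                linarith
              have h13 : (j : ℝ) / (4 * W) ≤ |Real.log ((n : ℝ) / p)| :=
                h6.trans (h5.trans (neg_le_abs _))
              have h14 := mul_le_mul_of_nonneg_left h13 hW0.le
              have h15 : W * ((j : ℝ) / (4 * W)) = j / 4 := by field_simp
              rw [h15] at h14
              linarith
        _ = 1 / ((p : ℝ) / 4) * (2304 / ((j : ℝ) + 1) ^ 2) *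
              ∑ n ∈ Finset.Ioc (y (j + 1)) (y j), A n := by
            rw [Finset.mul_sum]
        _ ≤ 1 / ((p : ℝ) / 4) * (2304 / ((j : ℝ) + 1) ^ 2) * (C * h0) :=
            mul_le_mul_of_nonneg_left h3 (by positivity)
        _ = 2304 * C / W * (1 / ((j : ℝ) + 1) ^ 2) := by
            rw [hh0]
            field_simp
    refine (Finset.sum_le_sum h2).trans ?_
    rw [← Finset.mul_sum]
    calc 2304 * C / W * ∑ j ∈ Finset.range J', 1 / ((j : ℝ) + 1) ^ 2 ≤ 2304 * C / W * 2 :=
          mul_le_mul_of_nonneg_left (sum_sq J') (by positivity)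
      _ = 4608 * C / W := by ring
  -- positions of the ends
  have hyJ : ((y J' : ℕ) : ℝ) ≤ p / 2 := by
    rcases le_or_gt 0 ((p : ℝ) - J' * h0) with h | h
    · refine (Nat.floor_le h).trans ?_
      have := mul_le_mul_of_nonneg_right hJ1' hh0pos.le
      have h4 : 2 * W * h0 = p / 2 := by
        calc 2 * W * h0 = 2 * (W * h0) := by ring
          _ = p / 2 := by rw [hWh]; ring
      linarith
    · have h1 : y J' = 0 := Nat.floor_of_nonpos h.le
      rw [h1]
      push_cast
      positivity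
  have hyp : y J' ≤ p := by
    have h1 : ((y J' : ℕ) : ℝ) ≤ p := by linarith
    exact_mod_cast h1
  have hxJ : ∀ n : ℕ, x J < n → 2 * (p : ℝ) < n := by
    intro n hn
    have h1 : (p : ℝ) + J * h0 < n := Nat.lt_of_floor_lt hn
    have := mul_le_mul_of_nonneg_right hJ1 hh0pos.le
    have h4 : 4 * W * h0 = p := by
      calc 4 * W * h0 = 4 * (W * h0) := by ring
        _ = p := by rw [hWh]; ring
    linarith
  have hxp : p ≤ x J := by
    apply Nat.le_floor
    have : 0 ≤ (J : ℝ) * h0 := by positivity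
    linarith
  have hlog2 : (1 : ℝ) / 2 ≤ Real.log 2 := by
    have := Real.log_two_gt_d9
    linarith
  -- the far lower part
  have hlow : ∑ n ∈ Finset.Ioc 0 (y J'), t n ≤ 64 * E * (C + K0) / W := by
    calc ∑ n ∈ Finset.Ioc 0 (y J'), t n
        ≤ ∑ n ∈ Finset.Ioc 0 (y J'), E * (1 / p) * (16 / W) * A n := by
          refine Finset.sum_le_sum fun n hn => ?_
          rw [Finset.mem_Ioc] at hn
          have hn0 : (0 : ℝ) < n := by exact_mod_cast hn.1
          have hn2 : (n : ℝ) ≤ p / 2 := (Nat.cast_le.2 hn.2).trans hyJ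
          apply hfar1 n hn.1
          refine le_trans ?_ (neg_le_abs _)
          rw [← Real.log_inv, inv_div]
          refine hlog2.trans (Real.log_le_log (by norm_num) ?_)
          rw [le_div_iff₀ hn0]
          linarith
      _ = E * (1 / p) * (16 / W) * ∑ n ∈ Finset.Ioc 0 (y J'), A n := by rw [Finset.mul_sum]
      _ ≤ E * (1 / p) * (16 / W) * ((C + K0) * (4 * p)) := by
          apply mul_le_mul_of_nonneg_left _ (by positivity)
          refine le_trans ?_ (cum2 hA hC hs p (by omega))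
          exact Finset.sum_le_sum_of_subset_of_nonneg (Finset.Ioc_subset_Ioc_right hyp)
            (fun n _ _ => hA n)
      _ = 64 * E * (C + K0) / W := by
          field_simp
          norm_num
  -- the far upper part
  set M := max N (x J) with hM
  have hhigh : ∑ n ∈ Finset.Ioc (x J) M, t n ≤ 32 * E * C / W := by
    calc ∑ n ∈ Finset.Ioc (x J) M, t n
        ≤ ∑ n ∈ Finset.Ioc (x J) M, E * p * (16 / W) * (A n / (n : ℝ) ^ 2) := by
          refine Finset.sum_le_sum fun n hn => ?_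
          rw [Finset.mem_Ioc] at hn
          have hn2 := hxJ n hn.1
          apply hfar2 n (by omega)
          refine le_trans ?_ (le_abs_self _)
          refine hlog2.trans (Real.log_le_log (by norm_num) ?_)
          rw [le_div_iff₀ hp0]
          exact hn2.le
      _ = E * p * (16 / W) * ∑ n ∈ Finset.Ioc (x J) M, A n / (n : ℝ) ^ 2 := by rw [Finset.mul_sum]
      _ ≤ E * p * (16 / W) * (2 * C / p) := by
          apply mul_le_mul_of_nonneg_left _ (by positivity)
          refine le_trans ?_ (cum3 hA hC hs p (by omega) M)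
          exact Finset.sum_le_sum_of_subset_of_nonneg (Finset.Ioc_subset_Ioc_left hxp)
            (fun n _ _ => div_nonneg (hA n) (by positivity))
      _ = 32 * E * C / W := by
          field_simp
          norm_num
  -- assembly
  have htot : ∑ n ∈ (Finset.Icc 1 N).filter (fun n => n ≠ p), t n ≤ ∑ n ∈ Finset.Ioc 0 M, t n := by
    refine Finset.sum_le_sum_of_subset_of_nonneg ?_ (fun n _ _ => ht0 n)
    intro n hn
    rw [Finset.mem_filter, Finset.mem_Icc] at hn
    rw [Finset.mem_Ioc]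
    exact ⟨by omega, hn.1.2.trans (le_max_left _ _)⟩
  have hsplit : ∑ n ∈ Finset.Ioc 0 M, t n = ∑ n ∈ Finset.Ioc 0 (y J'), t n +
      ∑ n ∈ Finset.Ioc (y J') p, t n + ∑ n ∈ Finset.Ioc p (x J), t n +
      ∑ n ∈ Finset.Ioc (x J) M, t n := by
    rw [Finset.sum_Ioc_consecutive t (Nat.zero_le _) hyp,
      Finset.sum_Ioc_consecutive t (Nat.zero_le _) hxp,
      Finset.sum_Ioc_consecutive t (Nat.zero_le _) (le_max_right _ _)]
  refine htot.trans ?_
  rw [hsplit]
  have hfin : (5760 * C + 64 * E * (C + K0) + 32 * E * C) / W =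
      64 * E * (C + K0) / W + 4608 * C / W + 1152 * C / W + 32 * E * C / W := by
    ring
  rw [hfin]
  exact add_le_add (add_le_add (add_le_add hlow hdn) hup) hhigh

end Pool.Agent.W99.BG
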